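import Pool.Agent.H4.FV.OddT

set_option autoImplicit false
set_option linter.unusedVariables false
set_option linter.unusedSectionVars false

/-! ODD-SFIN: in the standard algebra relations are supported by few vertices and edges
(helper627 for helper4). -/

namespace Pool.Agent.H627.FV

open Pool.Agent.H4.FV.Odd

/-! ### linear algebra -/

section lin

variable {F : Type} [Field F] {B : Type} {r : ℕ}

theorem card_bd {ι : Type} (x : ι → (Fin r → F)) (h : LinearIndependent F x) :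
    ∃ n : ℕ, n ≤ r ∧ Nonempty (ι ≃ Fin n) := by
  have h1 := h.lt_aleph0_of_finiteDimensional
  rw [Cardinal.lt_aleph0_iff_finite] at h1
  have := Fintype.ofFinite ι
  have h2 := h.fintype_card_le_finrank
  rw [Module.finrank_fintype_fun_eq_card, Fintype.card_fin] at h2
  exact ⟨Fintype.card ι, h2, ⟨Fintype.equivFin ι⟩⟩

/-- the bilinear form -/
def NN (C : Fin r → Fin r → F) (U : Fin r → B → F) (b b' : B) : F :=
  ∑ k, ∑ l, C k l * (U k b * U l b')

theorem NN_col (C : Fin r → Fin r → F) (U : Fin r → B → F) (b b' : B) :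
    NN C U b b' = ∑ k, (∑ l, C k l * U l b') * U k b := by
  unfold NN
  refine Finset.sum_congr rfl fun k _ => ?_
  rw [Finset.sum_mul]
  refine Finset.sum_congr rfl fun l _ => ?_
  ring

theorem NN_row (C : Fin r → Fin r → F) (U : Fin r → B → F) (b b' : B) :
    NN C U b b' = ∑ l, (∑ k, C k l * U k b) * U l b' := by
  unfold NN
  rw [Finset.sum_comm]
  refine Finset.sum_congr rfl fun k _ => ?_
  rw [Finset.sum_mul]
  refine Finset.sum_congr rfl fun l _ => ?_
  ring

theorem zero_col {C : Fin r → Fin r → F} {U : Fin r → B → F} (hC : (Matrix.of C).det ≠ 0)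
    (hU : ∀ c : Fin r → F, (∀ b, ∑ k, c k * U k b = 0) → c = 0) {b' : B}
    (h : ∀ b, NN C U b b' = 0) (l : Fin r) : U l b' = 0 := by
  have h1 : (fun k => ∑ l, C k l * U l b') = 0 := by
    refine hU _ fun b => ?_
    rw [← NN_col]
    exact h b
  have h2 : (Matrix.of C).mulVec (fun l => U l b') = 0 := h1
  have h3 := Matrix.eq_zero_of_mulVec_eq_zero hC h2
  exact congrFun h3 l

theorem lin_ind {ι : Type} (C : Fin r → Fin r → F) (U : Fin r → B → F) (β γ : ι → B)
    (h1 : ∀ t, NN C U (β t) (γ t) ≠ 0) (h2 : ∀ t t', t ≠ t' → NN C U (β t) (γ t') = 0) :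
    LinearIndependent F (fun t => (fun l => ∑ k, C k l * U k (β t) : Fin r → F)) := by
  classical
  rw [linearIndependent_iff']
  intro s g hg i hi
  have h3 : ∑ l, (∑ t ∈ s, g t • (fun l => ∑ k, C k l * U k (β t) : Fin r → F)) l * U l (γ i) =
      ∑ t ∈ s, g t * NN C U (β t) (γ i) := by
    have h4 : ∀ l, (∑ t ∈ s, g t • (fun l => ∑ k, C k l * U k (β t) : Fin r → F)) l * U l (γ i) =
        ∑ t ∈ s, g t * ((∑ k, C k l * U k (β t)) * U l (γ i)) := by
      intro l
      rw [Finset.sum_apply, Finset.sum_mul]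
      refine Finset.sum_congr rfl fun t _ => ?_
      rw [Pi.smul_apply, smul_eq_mul]
      ring
    rw [Finset.sum_congr rfl fun l _ => h4 l, Finset.sum_comm]
    refine Finset.sum_congr rfl fun t _ => ?_
    rw [← Finset.mul_sum, ← NN_row]
  rw [hg] at h3
  simp only [Pi.zero_apply, zero_mul, Finset.sum_const_zero] at h3
  rw [Finset.sum_eq_single_of_mem i hi fun t _ hti => by rw [h2 t i hti, mul_zero]] at h3
  rcases mul_eq_zero.1 h3.symm with h4 | h4
  · exact h4
  · exact absurd h4 (h1 i)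


theorem NN_anti {p : ℕ} {C : Fin r → Fin r → ZMod p} (hC : Altm C) (U : Fin r → B → ZMod p)
    (b b' : B) : (∑ k, ∑ l, C k l * (U k b * U l b')) = -∑ k, ∑ l, C k l * (U k b' * U l b) := by
  rw [Finset.sum_comm, ← Finset.sum_neg_distrib]
  refine Finset.sum_congr rfl fun k _ => ?_
  rw [← Finset.sum_neg_distrib]
  refine Finset.sum_congr rfl fun l _ => ?_
  rw [hC.2 l k]
  ring

end lin

/-! ### the standard algebra -/

section std

variable {p : ℕ} [Fact p.Prime] {Γ : ℕ → ℕ → Prop}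

theorem sum_fst {ι : Type} (s : Finset ι) (f : ι → SA p Γ) :
    (∑ i ∈ s, f i).1 = ∑ i ∈ s, (f i).1 := by
  classical
  induction s using Finset.induction_on with
  | empty => rw [Finset.sum_empty, Finset.sum_empty]; rfl
  | insert i s hi ih =>
    rw [Finset.sum_insert hi, Finset.sum_insert hi, ← ih]
    rfl

theorem sum_snd {ι : Type} (s : Finset ι) (f : ι → SA p Γ) :
    (∑ i ∈ s, f i).2 = ∑ i ∈ s, (f i).2 := by
  classical
  induction s using Finset.induction_on with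
  | empty => rw [Finset.sum_empty, Finset.sum_empty]; rfl
  | insert i s hi ih =>
    rw [Finset.sum_insert hi, Finset.sum_insert hi, ← ih]
    rfl

theorem lcA_fst {ι : Type} [Fintype ι] (u : ι → SA p Γ) (c : ι → ZMod p) :
    (lcA p u c).1 = ∑ i, c i • (u i).1 := by
  unfold lcA
  rw [sum_fst]
  rfl

theorem blA_snd {r : ℕ} (u : Fin r → SA p Γ) (C : Fin r → Fin r → ZMod p) :
    (blA p u C).2 = (Kr p Γ).mkQ (∑ i, ∑ j, C i j • tn (u i).1 (u j).1) := by
  unfold blA
  rw [sum_snd, map_sum]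
  refine Finset.sum_congr rfl fun i _ => ?_
  rw [sum_snd, map_sum]
  refine Finset.sum_congr rfl fun j _ => ?_
  rw [map_smul]
  rfl

/-- the standard elements -/
noncomputable def sg (b : Bs Γ) : SA p Γ := (Finsupp.single b 1, 0)

theorem sg_fst (b : Bs Γ) : (sg b : SA p Γ).1 = Finsupp.single b 1 := rfl

theorem ind_sg (hct : T_ct p Γ) {ι : Type} [Fintype ι] {f : ι → Bs Γ} (hf : Function.Injective f) :
    IndA p (fun i => (sg (f i) : SA p Γ)) := by
  classical
  rintro c ⟨i, hi⟩ h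
  rw [hct, lcA_fst] at h
  have h1 := congrArg (fun x : Bs Γ →₀ ZMod p => x (f i)) h
  simp only [Finsupp.finsetSum_apply, Finsupp.smul_apply, sg_fst, Finsupp.zero_apply,
    smul_eq_mul] at h1
  rw [Finset.sum_eq_single_of_mem i (Finset.mem_univ i)] at h1
  · rw [Finsupp.single_eq_same, mul_one] at h1
    exact hi h1
  · intro j _ hj
    rw [Finsupp.single_apply, if_neg fun h2 => hj (hf h2), mul_zero]

theorem single_of_ne {b b' : Bs Γ} (h : b' ≠ b) : (sg b : SA p Γ).1 b' = 0 := by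
  classical
  rw [sg_fst, Finsupp.single_apply, if_neg fun h2 => h h2.symm]

theorem single_self (b : Bs Γ) : (sg b : SA p Γ).1 b = 1 := by
  rw [sg_fst, Finsupp.single_eq_same]

theorem tri_sg (hct : T_ct p Γ) (ht : T_tri p Γ) (v : ℕ) :
    TriA p (sg (Sum.inl (v, 0)) : SA p Γ) (sg (Sum.inl (v, 1))) (sg (Sum.inl (v, 2))) := by
  refine (ht _ _ _).2 ⟨?_, v, fun b hb => single_of_ne hb, fun b hb =>
    ⟨single_of_ne (hb 1), single_of_ne (hb 2)⟩⟩
  have h1 := ind_sg (p := p) hct (f := fun i : Fin 3 => (Sum.inl (v, i) : Bs Γ))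
    (fun i j h => by
      have h2 := Sum.inl.inj h
      exact (Prod.mk.inj h2).2)
  have h2 : ![(sg (Sum.inl (v, 0)) : SA p Γ), sg (Sum.inl (v, 1)), sg (Sum.inl (v, 2))] =
      fun i : Fin 3 => (sg (Sum.inl (v, i)) : SA p Γ) := by
    funext i
    fin_cases i <;> rfl
  rw [h2]
  exact h1

theorem qd_sg (hq : T_qd p Γ) (q : {q : ℕ × ℕ // Eo Γ q.1 q.2}) :
    QdA p (sg (Sum.inl (q.1.1, 0)) : SA p Γ) (sg (Sum.inl (q.1.2, 0))) (sg (Sum.inr (q, 0)))
      (sg (Sum.inr (q, 1))) := by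
  refine (hq _ _ _ _).2 ⟨q, q.1.1, q.1.2, fun b hb => single_of_ne hb, ?_,
    fun b hb => single_of_ne hb, ?_, fun b hb => ⟨single_of_ne (hb 0), single_of_ne (hb 1)⟩,
    Or.inl ⟨rfl, rfl, ?_⟩⟩
  · rw [single_self]
    exact one_ne_zero
  · rw [single_self]
    exact one_ne_zero
  · rw [single_self, single_self, single_self, single_self,
      single_of_ne (b := Sum.inr (q, 0)) (b' := Sum.inr (q, 1)) (by
        intro h
        have h2 := (Prod.mk.inj (Sum.inr.inj h)).2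
        exact absurd h2 (by decide))]
    ring

theorem two_ne (hp : p ≠ 2) : (2 : ZMod p) ≠ 0 := by
  intro h
  have h1 : ((2 : ℕ) : ZMod p) = 0 := by exact_mod_cast h
  rw [ZMod.natCast_eq_zero_iff] at h1
  exact hp ((Nat.prime_dvd_prime_iff_eq (Fact.out) Nat.prime_two).1 h1)

/-- the matrix is a relation -/
theorem rel_NN {r : ℕ} {C : Fin r → Fin r → ZMod p} (hC : Altm C) (hp : p ≠ 2)
    {u : Fin r → SA p Γ} (h : blA p u C = 0) :
    IsRel (p := p) (Γ := Γ) (NN C fun k b => (u k).1 b) := by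
  have h1 : (blA p u C).2 = 0 := by rw [h]; rfl
  rw [blA_snd, Submodule.mkQ_apply] at h1
  have h2 := (Submodule.Quotient.mk_eq_zero _).1 h1
  rw [mem_Kr] at h2
  have h3 : ∀ b b' : Bs Γ, (∑ i, ∑ j, C i j • tn (u i).1 (u j).1 : (Bs Γ × Bs Γ) →₀ ZMod p) (b, b') =
      NN C (fun k b => (u k).1 b) b b' := by
    intro b b'
    unfold NN
    rw [Finsupp.finsetSum_apply]
    refine Finset.sum_congr rfl fun i _ => ?_
    rw [Finsupp.finsetSum_apply]
    refine Finset.sum_congr rfl fun j _ => ?_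
    rw [Finsupp.smul_apply, tn_apply, smul_eq_mul]
  have h4 : ∀ b b' : Bs Γ, (∑ i, ∑ j, C i j • tn (u i).1 (u j).1 : (Bs Γ × Bs Γ) →₀ ZMod p) (b, b') -
      (∑ i, ∑ j, C i j • tn (u i).1 (u j).1 : (Bs Γ × Bs Γ) →₀ ZMod p) (b', b) =
      2 * NN C (fun k b => (u k).1 b) b b' := by
    intro b b'
    rw [h3, h3]
    have h5 : NN C (fun k b => (u k).1 b) b' b = - NN C (fun k b => (u k).1 b) b b' :=
      NN_anti hC (fun k b => (u k).1 b) b' b
    rw [h5]
    ring
  simp only [h4] at h2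
  have h20 := two_ne (p := p) hp
  have key : ∀ x : ZMod p, 2 * x = 0 → x = 0 := fun x hx =>
    (mul_eq_zero.1 hx).resolve_left h20
  refine ⟨fun v w h1 h3 => key _ (h2.vv v w h1 h3), fun q => mul_left_cancel₀ h20 (h2.e q),
    fun v w i h1 h3 => key _ (h2.v' v w i h1 h3), fun v w i j h1 h3 => key _ (h2.v'' v w i j h1 h3),
    fun v q => key _ (h2.ve v q), fun q q' h => key _ (h2.ee q q' h)⟩

theorem fin2 : ∀ i j : Fin 2, ¬ j = i → (j = 0 ∧ i = 1) ∨ (j = 1 ∧ i = 0) := by decide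

theorem fin2' : ∀ i : Fin 2, i = 0 ∨ i = 1 := by decide

theorem fin3' : ∀ i : Fin 3, i = 0 ∨ i = 1 ∨ i = 2 := by decide

/-- the covered generators -/
def Cov (N : Bs Γ → Bs Γ → ZMod p) (b : Bs Γ) : Prop :=
  (∃ v : ℕ, (∃ i : Fin 3, i ≠ 0 ∧ N (Sum.inl (v, 0)) (Sum.inl (v, i)) ≠ 0) ∧
    ∃ i : Fin 3, b = Sum.inl (v, i)) ∨
  ∃ q : {q : ℕ × ℕ // Eo Γ q.1 q.2}, N (Sum.inr (q, 0)) (Sum.inr (q, 1)) ≠ 0 ∧
    (b = Sum.inl (q.1.1, 0) ∨ b = Sum.inl (q.1.2, 0) ∨ b = Sum.inr (q, 0) ∨ b = Sum.inr (q, 1))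

theorem cov_of {N : Bs Γ → Bs Γ → ZMod p} (hN : IsRel N) (ha : ∀ b b', N b b' = - N b' b)
    {b b' : Bs Γ} (h : N b b' ≠ 0) : Cov N b' := by
  have hs : ∀ b b', N b b' ≠ 0 → N b' b ≠ 0 := by
    intro b b' h h1
    rw [ha, h1, neg_zero] at h
    exact h rfl
  rcases b' with ⟨v, i⟩ | ⟨q, i⟩
  · rcases b with ⟨w, j⟩ | b
    · by_cases hi : i = 0
      · subst hi
        by_cases hj : j = 0
        · subst hj
          right
          rcases lt_trichotomy w v with hlt | heq | hlt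
          · have h1 : Eo Γ w v := by
              by_contra hc
              exact h (hN.vv w v hlt.le hc)
            refine ⟨⟨(w, v), h1⟩, ?_, Or.inr (Or.inl rfl)⟩
            rw [← hN.e ⟨(w, v), h1⟩]
            exact h
          · exfalso
            subst heq
            exact h (hN.vv w w le_rfl fun hc => absurd hc.1 (lt_irrefl _))
          · have h0 := hs _ _ h
            have h1 : Eo Γ v w := by
              by_contra hc
              exact h0 (hN.vv v w hlt.le hc)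
            refine ⟨⟨(v, w), h1⟩, ?_, Or.inl rfl⟩
            rw [← hN.e ⟨(v, w), h1⟩]
            exact h0
        · left
          have h0 := hs _ _ h
          by_cases hvw : v = w
          · subst hvw
            exact ⟨v, ⟨j, hj, h0⟩, 0, rfl⟩
          · exact absurd (hN.v' v w j hj hvw) h0
      · left
        by_cases hj : j = 0
        · subst hj
          by_cases hvw : w = v
          · subst hvw
            exact ⟨w, ⟨i, hi, h⟩, i, rfl⟩
          · exact absurd (hN.v' w v i hi hvw) h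
        · exact absurd (hN.v'' w v j i hj hi) h
    · exact absurd (hN.ve (v, i) b) (hs _ _ h)
  · rcases b with b | ⟨q', j⟩
    · exact absurd (hN.ve b (q, i)) h
    · right
      by_cases hq : q' = q
      · subst hq
        by_cases hij : j = i
        · exact absurd (hN.ee (q', j) (q', i) (Or.inr hij)) h
        · refine ⟨q', ?_, ?_⟩
          · have hj2 : (j = 0 ∧ i = 1) ∨ (j = 1 ∧ i = 0) := fin2 i j hij
            rcases hj2 with ⟨rfl, rfl⟩ | ⟨rfl, rfl⟩
            · exact h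
            · exact hs _ _ h
          · right; right
            have : i = 0 ∨ i = 1 := fin2' i
            rcases this with rfl | rfl
            · exact Or.inl rfl
            · exact Or.inr rfl
      · exact absurd (hN.ee (q', j) (q, i) (Or.inl hq)) h

theorem mem_span_of {W : Submodule (ZMod p) (Bs Γ →₀ ZMod p)} {x : Bs Γ →₀ ZMod p}
    (h : ∀ b, x b ≠ 0 → Finsupp.single b (1 : ZMod p) ∈ W) : x ∈ W := by
  have h1 : x = ∑ b ∈ x.support, x b • Finsupp.single b (1 : ZMod p) := by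
    conv_lhs => rw [← Finsupp.sum_single x]
    unfold Finsupp.sum
    refine Finset.sum_congr rfl fun b _ => ?_
    rw [Finsupp.smul_single, smul_eq_mul, mul_one]
  rw [h1]
  exact W.sum_mem fun b hb => W.smul_mem _ (h b (Finsupp.mem_support_iff.1 hb))

theorem fin_core (hp : p ≠ 2) (hct : T_ct p Γ) (ht : T_tri p Γ) (hq : T_qd p Γ) :
    FfinA p (SA p Γ) := by
  classical
  intro r C hC hdet u hu hbl
  obtain ⟨U, hU⟩ : ∃ U : Fin r → Bs Γ → ZMod p, U = fun k b => (u k).1 b := ⟨_, rfl⟩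
  obtain ⟨N, hN⟩ : ∃ N : Bs Γ → Bs Γ → ZMod p, N = NN C U := ⟨_, rfl⟩
  have hrel : IsRel (p := p) (Γ := Γ) N := by
    rw [hN, hU]
    exact rel_NN hC hp hbl
  have ha : ∀ b b', N b b' = - N b' b := by
    intro b b'
    rw [hN]
    exact NN_anti hC U b b'
  have hUi : ∀ c : Fin r → ZMod p, (∀ b, ∑ k, c k * U k b = 0) → c = 0 := by
    intro c hc
    by_contra hne
    have h1 : ∃ i, c i ≠ 0 := by
      by_contra h2
      push Not at h2
      exact hne (funext h2)
    refine hu c h1 ?_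
    rw [hct, lcA_fst]
    ext b
    rw [Finsupp.finsetSum_apply, Finsupp.zero_apply]
    have h2 := hc b
    rw [hU] at h2
    exact h2
  have hcov : ∀ l b', (u l).1 b' ≠ 0 → Cov N b' := by
    intro l b' h
    have h1 : ∃ b, N b b' ≠ 0 := by
      by_contra h2
      push Not at h2
      rw [hN] at h2
      have h3 := zero_col (C := C) (U := U) hdet hUi h2 l
      rw [hU] at h3
      exact h h3
    obtain ⟨b, hb⟩ := h1
    exact cov_of hrel ha hb
  -- the vertices
  obtain ⟨VV, hVV⟩ : ∃ VV : ℕ → Prop, ∀ v, VV v ↔ ∃ i : Fin 3, i ≠ 0 ∧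
      N (Sum.inl (v, 0)) (Sum.inl (v, i)) ≠ 0 := ⟨_, fun _ => Iff.rfl⟩
  obtain ⟨QQ, hQQ⟩ : ∃ QQ : {q : ℕ × ℕ // Eo Γ q.1 q.2} → Prop, ∀ q, QQ q ↔
      N (Sum.inr (q, 0)) (Sum.inr (q, 1)) ≠ 0 := ⟨_, fun _ => Iff.rfl⟩
  have hV : ∃ n : ℕ, n ≤ r ∧ Nonempty ({v : ℕ // VV v} ≃ Fin n) := by
    have h1 : ∀ v : {v : ℕ // VV v}, ∃ i : Fin 3, i ≠ 0 ∧
        N (Sum.inl (v.1, 0)) (Sum.inl (v.1, i)) ≠ 0 := fun v => (hVV v.1).1 v.2
    choose ι hι using h1
    refine card_bd _ (lin_ind C U (fun v : {v : ℕ // VV v} => (Sum.inl (v.1, ι v) : Bs Γ))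
      (fun v => Sum.inl (v.1, 0)) ?_ ?_)
    · intro v
      have h2 := (hι v).2
      rw [ha] at h2
      rw [← hN]
      exact fun h3 => h2 (by rw [h3, neg_zero])
    · intro v w hvw
      rw [← hN, ha, hrel.v' w.1 v.1 (ι v) (hι v).1 fun h => hvw (Subtype.ext h.symm), neg_zero]
  have hQ : ∃ m : ℕ, m ≤ r ∧ Nonempty ({q : {q : ℕ × ℕ // Eo Γ q.1 q.2} // QQ q} ≃ Fin m) := by
    refine card_bd _ (lin_ind C U
      (fun q : {q : {q : ℕ × ℕ // Eo Γ q.1 q.2} // QQ q} => (Sum.inr (q.1, 0) : Bs Γ))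
      (fun q => Sum.inr (q.1, 1)) ?_ ?_)
    · intro q
      rw [← hN]
      exact (hQQ q.1).1 q.2
    · intro q q' hqq
      rw [← hN]
      exact hrel.ee (q.1, 0) (q'.1, 1) (Or.inl fun h => hqq (Subtype.ext h))
  obtain ⟨n, hn, ⟨en⟩⟩ := hV
  obtain ⟨m, hm, ⟨em⟩⟩ := hQ
  refine ⟨⟨n, Nat.lt_succ_of_le hn⟩, ⟨m, Nat.lt_succ_of_le hm⟩,
    fun i => sg (Sum.inl ((en.symm i).1, 0)), fun i => sg (Sum.inl ((en.symm i).1, 1)),
    fun i => sg (Sum.inl ((en.symm i).1, 2)), fun k => sg (Sum.inl ((em.symm k).1.1.1, 0)),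
    fun k => sg (Sum.inl ((em.symm k).1.1.2, 0)), fun k => sg (Sum.inr ((em.symm k).1, 0)),
    fun k => sg (Sum.inr ((em.symm k).1, 1)), fun i => tri_sg hct ht _, fun k => qd_sg hq _, ?_⟩
  intro l
  obtain ⟨cfg, hcfg⟩ : ∃ cfg : (Fin n × Fin 3) ⊕ (Fin m × Fin 4) → SA p Γ, cfg =
      cf' (fun i : Fin n => (sg (Sum.inl ((en.symm i).1, 0)) : SA p Γ))
      (fun i => sg (Sum.inl ((en.symm i).1, 1)))
      (fun i => sg (Sum.inl ((en.symm i).1, 2)))
      (fun k : Fin m => sg (Sum.inl ((em.symm k).1.1.1, 0)))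
      (fun k => sg (Sum.inl ((em.symm k).1.1.2, 0))) (fun k => sg (Sum.inr ((em.symm k).1, 0)))
      (fun k => sg (Sum.inr ((em.symm k).1, 1))) := ⟨_, rfl⟩
  show InSA p (cf' (fun i : Fin n => (sg (Sum.inl ((en.symm i).1, 0)) : SA p Γ))
      (fun i => sg (Sum.inl ((en.symm i).1, 1)))
      (fun i => sg (Sum.inl ((en.symm i).1, 2)))
      (fun k : Fin m => sg (Sum.inl ((em.symm k).1.1.1, 0)))
      (fun k => sg (Sum.inl ((em.symm k).1.1.2, 0))) (fun k => sg (Sum.inr ((em.symm k).1, 0)))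
      (fun k => sg (Sum.inr ((em.symm k).1, 1)))) (u l)
  rw [← hcfg]
  have hmem : (u l).1 ∈ Submodule.span (ZMod p) (Set.range fun j => (cfg j).1) := by
    refine mem_span_of fun b hb => ?_
    rcases hcov l b hb with ⟨v, hv, i, rfl⟩ | ⟨q, hq1, hq2⟩
    · have hv' : VV v := (hVV v).2 hv
      refine Submodule.subset_span ⟨Sum.inl (en ⟨v, hv'⟩, i), ?_⟩
      rw [hcfg]
      have h1 : i = 0 ∨ i = 1 ∨ i = 2 := fin3' i
      have h2 : en.symm (en ⟨v, hv'⟩) = ⟨v, hv'⟩ := Equiv.symm_apply_apply _ _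
      rcases h1 with rfl | rfl | rfl
      · show Finsupp.single (Sum.inl ((en.symm (en ⟨v, hv'⟩)).1, 0) : Bs Γ) (1 : ZMod p) = _
        rw [h2]
      · show Finsupp.single (Sum.inl ((en.symm (en ⟨v, hv'⟩)).1, 1) : Bs Γ) (1 : ZMod p) = _
        rw [h2]
      · show Finsupp.single (Sum.inl ((en.symm (en ⟨v, hv'⟩)).1, 2) : Bs Γ) (1 : ZMod p) = _
        rw [h2]
    · have hq' : QQ q := (hQQ q).2 hq1
      have h2 : em.symm (em ⟨q, hq'⟩) = ⟨q, hq'⟩ := Equiv.symm_apply_apply _ _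
      rcases hq2 with rfl | rfl | rfl | rfl
      · refine Submodule.subset_span ⟨Sum.inr (em ⟨q, hq'⟩, 0), ?_⟩
        rw [hcfg]
        show Finsupp.single (Sum.inl ((em.symm (em ⟨q, hq'⟩)).1.1.1, 0) : Bs Γ) (1 : ZMod p) = _
        rw [h2]
      · refine Submodule.subset_span ⟨Sum.inr (em ⟨q, hq'⟩, 1), ?_⟩
        rw [hcfg]
        show Finsupp.single (Sum.inl ((em.symm (em ⟨q, hq'⟩)).1.1.2, 0) : Bs Γ) (1 : ZMod p) = _
        rw [h2]
      · refine Submodule.subset_span ⟨Sum.inr (em ⟨q, hq'⟩, 2), ?_⟩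
        rw [hcfg]
        show Finsupp.single (Sum.inr ((em.symm (em ⟨q, hq'⟩)).1, 0) : Bs Γ) (1 : ZMod p) = _
        rw [h2]
      · refine Submodule.subset_span ⟨Sum.inr (em ⟨q, hq'⟩, 3), ?_⟩
        rw [hcfg]
        show Finsupp.single (Sum.inr ((em.symm (em ⟨q, hq'⟩)).1, 1) : Bs Γ) (1 : ZMod p) = _
        rw [h2]
  rw [Submodule.mem_span_range_iff_exists_fun] at hmem
  obtain ⟨c, hc⟩ := hmem
  refine ⟨fun j => - c j, ?_⟩
  rw [hct]
  show (u l).1 + (lcA p cfg fun j => - c j).1 = 0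
  rw [lcA_fst]
  simp only [neg_smul]
  rw [Finset.sum_neg_distrib, hc, add_neg_cancel]

end std

theorem sfin : S_sfin := fun _ _ hp _ hct ht hq => fin_core hp hct ht hq

end Pool.Agent.H627.FV
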